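import Pool.Agent.W128.VA.Stm2

/-!
# VA-IRR: the irreducible submodules
-/

set_option autoImplicit false

namespace Pool.Agent.W494.VA.IRR

open Finset Pool.Agent.W128.VA

section

universe u

variable {M : Type u} [AddCommGroup M] [Module ℂ M]

/-- eigenvector components of a vector of a stable subspace -/
lemma eig_split (T : Module.End ℂ M) (N' : Submodule ℂ M) (hN : ∀ v ∈ N', T v ∈ N') (j : ℤ)
    (S : Finset ℤ) : ∀ v : ℤ → M, (∀ k ∈ S, T (v k) = ((j + 2 * k : ℤ) : ℂ) • v k) →
    ∑ k ∈ S, v k ∈ N' → ∀ k ∈ S, v k ∈ N' := by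
  classical
  induction S using Finset.induction_on with
  | empty => intro v _ _ k hk; simp at hk
  | insert k0 S hk0 ih =>
    intro v hv hsum
    have h1 : ∑ k ∈ S, ((2 * (k - k0) : ℤ) : ℂ) • v k ∈ N' := by
      have h2 := Submodule.sub_mem _ (hN _ hsum) (Submodule.smul_mem _ ((j + 2 * k0 : ℤ) : ℂ) hsum)
      have h3 : T (∑ k ∈ insert k0 S, v k) - ((j + 2 * k0 : ℤ) : ℂ) • ∑ k ∈ insert k0 S, v k =
          ∑ k ∈ S, ((2 * (k - k0) : ℤ) : ℂ) • v k := by
        rw [map_sum, Finset.smul_sum, ← Finset.sum_sub_distrib, Finset.sum_insert hk0,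
          hv k0 (Finset.mem_insert_self _ _), sub_self, zero_add]
        apply Finset.sum_congr rfl
        intro k hk
        rw [hv k (Finset.mem_insert_of_mem hk), ← sub_smul]
        congr 1
        push_cast
        ring
      rwa [h3] at h2
    have h4 := ih (fun k => ((2 * (k - k0) : ℤ) : ℂ) • v k) (fun k hk => by
      rw [map_smul, hv k (Finset.mem_insert_of_mem hk), smul_comm]) h1
    have h5 : ∀ k ∈ S, v k ∈ N' := by
      intro k hk
      have h6 := h4 k hk
      have hne : ((2 * (k - k0) : ℤ) : ℂ) ≠ 0 := by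
        have : k ≠ k0 := by rintro rfl; exact hk0 hk
        have h7 : (2 * (k - k0) : ℤ) ≠ 0 := by omega
        exact_mod_cast h7
      have h8 := Submodule.smul_mem _ (((2 * (k - k0) : ℤ) : ℂ)⁻¹) h6
      rwa [smul_smul, inv_mul_cancel₀ hne, one_smul] at h8
    intro k hk
    rcases Finset.mem_insert.1 hk with rfl | hk
    · have h9 : v k = ∑ k ∈ insert k S, v k - ∑ k ∈ S, v k := by
        rw [Finset.sum_insert hk0, add_sub_cancel_right]
      rw [h9]
      exact Submodule.sub_mem _ hsum (Submodule.sum_mem _ h5)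
    · exact h5 k hk

variable {gr : ℤ → Submodule ℂ M} {h e f : ℤ → Module.End ℂ M}

/-- a nonzero stable subspace contains a nonzero vector killed by all `h n`, `n > 0` -/
lemma exists_killed (R : SlRel gr h e f) (N' : Submodule ℂ M)
    (hN : ∀ n : ℤ, ∀ v ∈ N', h n v ∈ N') (hne : N' ≠ ⊥) :
    ∃ u ∈ N', u ≠ 0 ∧ ∀ n : ℤ, 0 < n → h n u = 0 := by
  let G : ℤ → Submodule ℂ M := fun D => ⨆ (d : ℤ) (_ : d ≤ D), gr d
  have hG0 : ∀ D : ℤ, D < 0 → G D = ⊥ := by
    intro D hD
    simp only [G, iSup_eq_bot]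
    intro d hd
    exact R.gr_neg d (by omega)
  have hGmono : ∀ D D' : ℤ, D ≤ D' → G D ≤ G D' := by
    intro D D' hD
    exact iSup₂_le fun d hd => le_iSup₂_of_le d (hd.trans hD) le_rfl
  have hGh : ∀ (D n : ℤ) (v : M), v ∈ G D → h n v ∈ G (D - n) := by
    intro D n v hv
    have h1 : G D ≤ (G (D - n)).comap (h n) := by
      refine iSup₂_le fun d hd x hx => ?_
      have h2 : gr (d - n) ≤ G (D - n) := le_iSup₂_of_le (d - n) (by omega) le_rfl
      exact h2 (R.dh n d x hx)
    exact h1 hv
  have hGtop : ∀ v : M, ∃ D : ℕ, v ∈ G D := by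
    intro v
    have h1 : (⨆ D : ℕ, G D) = ⊤ := by
      rw [eq_top_iff, ← R.gr_int.submodule_iSup_eq_top]
      refine iSup_le fun d => ?_
      refine le_trans ?_ (le_iSup (fun D : ℕ => G D) d.toNat)
      exact le_iSup₂_of_le d (Int.self_le_toNat d) le_rfl
    have hdir : Directed (· ≤ ·) (fun D : ℕ => G D) := by
      apply Monotone.directed_le
      intro a b hab
      exact hGmono _ _ (by exact_mod_cast hab)
    have h2 : v ∈ ⨆ D : ℕ, G D := by rw [h1]; trivial
    exact (Submodule.mem_iSup_of_directed _ hdir).1 h2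
  have key : ∀ D : ℕ, ∀ v ∈ N', v ≠ 0 → v ∈ G D →
      ∃ u ∈ N', u ≠ 0 ∧ ∀ n : ℤ, 0 < n → h n u = 0 := by
    intro D
    induction D using Nat.strong_induction_on with
    | _ D ih =>
      intro v hv hv0 hvG
      by_cases hall : ∀ n : ℤ, 0 < n → h n v = 0
      · exact ⟨v, hv, hv0, hall⟩
      · push Not at hall
        obtain ⟨n, hn, hnv⟩ := hall
        have h1 := hGh D n v hvG
        by_cases hD : (D : ℤ) - n < 0
        · rw [hG0 _ hD, Submodule.mem_bot] at h1
          exact absurd h1 hnv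
        · apply ih ((D : ℤ) - n).toNat (by omega) (h n v) (hN n v hv) hnv
          rwa [Int.toNat_of_nonneg (by omega)]
  obtain ⟨v, hv, hv0⟩ := Submodule.exists_mem_ne_zero_of_ne_bot hne
  obtain ⟨D, hD⟩ := hGtop v
  exact key D v hv hv0 hD

end

theorem main.{u} : S_STR.{u} → S_SPAN.{u} → S_HEI2.{u} → S_SEQ.{u} → S_IRR.{u} := by
  classical
  intro _ hSPAN hHEI hSEQ M _ _ gr h e f R j d w hw hwd hw0
  obtain ⟨s, hs0, hs⟩ := hSEQ M gr h e f R j d w hw hwd
  let N : Submodule ℂ M := sInf {P | (∀ k, s k ∈ P) ∧ ∀ i : ℤ, 0 < i → ∀ v ∈ P, h (-i) v ∈ P}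
  have hNs : ∀ k, s k ∈ N := fun k => Submodule.mem_sInf.2 fun P hP => hP.1 k
  have hNh : ∀ i : ℤ, 0 < i → ∀ v ∈ N, h (-i) v ∈ N := fun i hi v hv =>
    Submodule.mem_sInf.2 fun P hP => hP.2 i hi v (Submodule.mem_sInf.1 hv P hP)
  have hNmin : ∀ P : Submodule ℂ M, (∀ k, s k ∈ P) → (∀ i : ℤ, 0 < i → ∀ v ∈ P, h (-i) v ∈ P) →
      N ≤ P := fun P h1 h2 => sInf_le ⟨h1, h2⟩
  have hwN : w ∈ N := by rw [← hs0]; exact hNs 0
  -- stability under `h`
  have hst1 : ∀ n : ℤ, ∀ v ∈ N, h n v ∈ N := by
    have h1 : N ≤ N ⊓ ⨅ n : ℤ, N.comap (h n) := by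
      apply hNmin
      · intro k
        rw [Submodule.mem_inf, Submodule.mem_iInf]
        refine ⟨hNs k, fun n => ?_⟩
        rw [Submodule.mem_comap]
        have hk := (hs k).1
        rcases lt_trichotomy n 0 with hn | hn | hn
        · have := hNh (-n) (by omega) (s k) (hNs k)
          rwa [neg_neg] at this
        · rw [hn, hk.2]
          exact Submodule.smul_mem _ _ (hNs k)
        · rw [hk.1 n hn]
          exact Submodule.zero_mem _
      · intro i hi v hv
        rw [Submodule.mem_inf, Submodule.mem_iInf] at hv ⊢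
        refine ⟨hNh i hi v hv.1, fun n => ?_⟩
        rw [Submodule.mem_comap]
        have h2 := R.hh n (-i) v
        have h3 : h n (h (-i) v) = h (-i) (h n v) +
            (if n + -i = 0 then (2 * (n : ℂ)) else 0) • v := by
          rw [← h2]; abel
        rw [h3]
        exact Submodule.add_mem _ (hNh i hi _ (hv.2 n)) (Submodule.smul_mem _ _ hv.1)
    intro n v hv
    have h2 := (Submodule.mem_inf.1 (h1 hv)).2
    rw [Submodule.mem_iInf] at h2
    exact h2 n
  -- stability under `e`
  have hst2 : ∀ n : ℤ, ∀ v ∈ N, e n v ∈ N := by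
    have h1 : N ≤ N ⊓ ⨅ n : ℤ, N.comap (e n) := by
      apply hNmin
      · intro k
        rw [Submodule.mem_inf, Submodule.mem_iInf]
        refine ⟨hNs k, fun n => ?_⟩
        rw [Submodule.mem_comap]
        obtain ⟨hk1, -, hk3, -⟩ := hs k
        refine (hSPAN M gr h e f R (j + 2 * k) (s k) hk1 N hNh).1 ?_ n
        rw [← hk3]
        exact hNs _
      · intro i hi v hv
        rw [Submodule.mem_inf, Submodule.mem_iInf] at hv ⊢
        refine ⟨hNh i hi v hv.1, fun n => ?_⟩
        rw [Submodule.mem_comap]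
        have h2 := R.he (-i) n v
        have h3 : e n (h (-i) v) = h (-i) (e n v) - (2 : ℂ) • e (-i + n) v := by
          rw [← h2]; abel
        rw [h3]
        exact Submodule.sub_mem _ (hNh i hi _ (hv.2 n)) (Submodule.smul_mem _ _ (hv.2 _))
    intro n v hv
    have h2 := (Submodule.mem_inf.1 (h1 hv)).2
    rw [Submodule.mem_iInf] at h2
    exact h2 n
  -- stability under `f`
  have hst3 : ∀ n : ℤ, ∀ v ∈ N, f n v ∈ N := by
    have h1 : N ≤ N ⊓ ⨅ n : ℤ, N.comap (f n) := by
      apply hNmin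
      · intro k
        rw [Submodule.mem_inf, Submodule.mem_iInf]
        refine ⟨hNs k, fun n => ?_⟩
        rw [Submodule.mem_comap]
        obtain ⟨hk1, -, -, hk4⟩ := hs k
        refine (hSPAN M gr h e f R (j + 2 * k) (s k) hk1 N hNh).2 ?_ n
        rw [← hk4]
        exact hNs _
      · intro i hi v hv
        rw [Submodule.mem_inf, Submodule.mem_iInf] at hv ⊢
        refine ⟨hNh i hi v hv.1, fun n => ?_⟩
        rw [Submodule.mem_comap]
        have h2 := R.hf (-i) n v
        have h3 : f n (h (-i) v) = h (-i) (f n v) - (-2 : ℂ) • f (-i + n) v := by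
          rw [← h2]; abel
        rw [h3]
        exact Submodule.sub_mem _ (hNh i hi _ (hv.2 n)) (Submodule.smul_mem _ _ (hv.2 _))
    intro n v hv
    have h2 := (Submodule.mem_inf.1 (h1 hv)).2
    rw [Submodule.mem_iInf] at h2
    exact h2 n
  -- graded
  have hgr : N ≤ ⨆ n, N ⊓ gr n := by
    apply hNmin
    · intro k
      obtain ⟨-, ⟨c, hc⟩, -, -⟩ := hs k
      exact Submodule.mem_iSup_of_mem c ⟨hNs k, hc⟩
    · intro i hi v hv
      have h1 : (⨆ n, N ⊓ gr n) ≤ (⨆ n, N ⊓ gr n).comap (h (-i)) := by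
        refine iSup_le fun n x hx => ?_
        exact Submodule.mem_iSup_of_mem (n - -i) ⟨hNh i hi x hx.1, R.dh (-i) n x hx.2⟩
      exact h1 hv
  refine ⟨N, hwN, ?_, ⟨hst1, hst2, hst3⟩, hgr, ?_⟩
  · intro hbot
    rw [hbot, Submodule.mem_bot] at hwN
    exact hw0 hwN
  · intro N' hN'N hstab
    by_cases hne : N' = ⊥
    · exact Or.inl hne
    right
    apply le_antisymm hN'N
    obtain ⟨u, huN, hu0, hu⟩ := exists_killed R N' hstab.1 hne
    -- decomposition of `u`
    have hdec : N ≤ Submodule.span ℂ (Set.range s) ⊔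
        ⨆ n : {n : ℤ // 0 < n}, LinearMap.range (h (-(n : ℤ))) := by
      apply hNmin
      · intro k
        exact Submodule.mem_sup_left (Submodule.subset_span ⟨k, rfl⟩)
      · intro i hi v _
        exact Submodule.mem_sup_right (Submodule.mem_iSup_of_mem ⟨i, hi⟩ ⟨v, rfl⟩)
    obtain ⟨y, hy, z, hz, hyz⟩ := Submodule.mem_sup.1 (hdec (hN'N huN))
    have hkill : ∀ n : ℤ, 0 < n → h n y = 0 := by
      intro n hn
      have h1 : Submodule.span ℂ (Set.range s) ≤ LinearMap.ker (h n) := by
        rw [Submodule.span_le]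
        rintro _ ⟨k, rfl⟩
        exact (hs k).1.1 n hn
      exact h1 hy
    have hz0 : z = 0 := by
      apply hHEI M gr h e f R z _ hz
      intro n hn
      have h1 : z = u - y := by rw [← hyz]; abel
      rw [h1, map_sub, hu n hn, hkill n hn, sub_zero]
    rw [hz0, add_zero] at hyz
    rw [hyz, Finsupp.mem_span_range_iff_exists_finsupp] at hy
    obtain ⟨c, hc⟩ := hy
    rw [Finsupp.sum] at hc
    -- the components
    have hcomp := eig_split (h 0) N' (hstab.1 0) j c.support (fun k => c k • s k) (by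
      intro k _
      rw [map_smul, (hs k).1.2, smul_comm]) (by rw [hc]; exact huN)
    have hex : ∃ k ∈ c.support, c k • s k ≠ 0 := by
      by_contra hcon
      push Not at hcon
      apply hu0
      rw [← hc]
      exact Finset.sum_eq_zero hcon
    obtain ⟨k, hkS, hk0⟩ := hex
    have hck : c k ≠ 0 := by
      intro h0
      rw [h0, zero_smul] at hk0
      exact hk0 rfl
    have hsk : s k ∈ N' := by
      have h1 := Submodule.smul_mem _ (c k)⁻¹ (hcomp k hkS)
      rwa [smul_smul, inv_mul_cancel₀ hck, one_smul] at h1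
    have hup : ∀ t : ℕ, s (k + t) ∈ N' := by
      intro t
      induction t with
      | zero => simpa using hsk
      | succ t ih =>
        have h1 := (hs (k + t)).2.2.1
        rw [show k + ((t + 1 : ℕ) : ℤ) = k + t + 1 by push_cast; ring, h1]
        exact hstab.2.1 _ _ ih
    have hdown : ∀ t : ℕ, s (k - t) ∈ N' := by
      intro t
      induction t with
      | zero => simpa using hsk
      | succ t ih =>
        have h1 := (hs (k - t)).2.2.2
        rw [show k - ((t + 1 : ℕ) : ℤ) = k - t - 1 by push_cast; ring, h1]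
        exact hstab.2.2 _ _ ih
    apply hNmin
    · intro k'
      rcases le_total k k' with hkk | hkk
      · have := hup (k' - k).toNat
        rwa [Int.toNat_of_nonneg (by omega), show k + (k' - k) = k' by ring] at this
      · have := hdown (k - k').toNat
        rwa [Int.toNat_of_nonneg (by omega), show k - (k - k') = k' by ring] at this
    · intro i _ v hv
      exact hstab.1 _ _ hv

end Pool.Agent.W494.VA.IRR
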